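import Pool.Agent.Helper22.SL.Defs

/-!
# T5, block SL: the event of pairwise distinct initial parts

`prL_of`: S15 with the counting lemma S8 and the extraction lemma S9 as hypotheses.
-/

namespace Pool.Agent.Helper82.SL

open Finset Pool.Agent.Helper27.T4 Pool.Agent.Helper29.T4 Pool.Agent.Helper22.HW
open Pool.Agent.Helper22.SL

variable {κ : Type*} [DecidableEq κ] {Mk : κ → ℕ} {P : Pr κ} {I : ℕ} {X Ir : ℕ → ℕ}

omit [DecidableEq κ] in
/-- the levels of the data in `CC` carry admissible vectors -/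
theorem CC_Y {w : κ → ℕ} {r : ℕ} {d : Dt} (hd : d ∈ CC P w I X r) :
    ∀ t < r, (d.2 t).1.1 ∈ P.Y t ∧ (d.2 t).1.2 ∈ P.Y t := by
  classical
  induction r generalizing d with
  | zero => intro t ht; exact absurd ht (Nat.not_lt_zero t)
  | succ r ih =>
    intro t ht
    rw [CC, mem_image] at hd
    obtain ⟨q, hq, rfl⟩ := hd
    rw [mem_filter, mem_product] at hq
    by_cases htr : t = r
    · subst htr
      simp only [Function.update_self]
      exact ⟨hq.2.y, hq.2.y'⟩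
    · simp only [Function.update_of_ne htr]
      exact ih hq.1.1 t (by omega)

omit [DecidableEq κ] in
theorem L_succ (r : ℕ) : P.L (r + 1) = P.L r * P.Q r := by
  rw [Pr.L, Pr.L, prod_range_succ, mul_assoc]

omit [DecidableEq κ] in
/-- a code with all components given by the keys is the code of the vector -/
theorem cd_eq (hP : P.Ok Mk) {w : κ → ℕ} {r t : ℕ} (hr : r < P.h) {ℓ : Lv}
    (h : Lok P w univ univ r t ℓ) :
    (P.S r).cd (hP.prime r) (hP.inj r) w ℓ.1.1 = ℓ.2.1 := by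
  have hs := hP.sok r hr
  refine eq_of_casts (hP.prime r) (hP.inj r) (M := P.F (r + 1) * P.L r) hs.cop (P.z r) ?_ ?_ ?_ ?_ ?_
  · exact fc_lt (hP.prime r) (hP.inj r) _ hs.pos _ _
  · have := h.lt
    rw [L_succ, ← mul_assoc] at this
    exact this
  · exact dvd_fc _ _ _ _ _
  · exact h.dvd
  · intro i
    rw [h.cmp i (mem_univ i)]
    exact fc_cast (hP.prime r) (hP.inj r) (P.F (r + 1) * P.L r) hs.cop (P.z r) _ i

omit [DecidableEq κ] in
theorem cd_eq' (hP : P.Ok Mk) {w : κ → ℕ} {r t : ℕ} (hr : r < P.h) {ℓ : Lv}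
    (h : Lok P w univ univ r t ℓ) :
    (P.S' r).cd (hP.prime r) (hP.inj r) w ℓ.1.2 = ℓ.2.2 := by
  have hs := hP.sok' r hr
  refine eq_of_casts (hP.prime r) (hP.inj r) (M := P.F' (r + 1) * P.L r) hs.cop (P.z r) ?_ ?_ ?_ ?_ ?_
  · exact fc_lt (hP.prime r) (hP.inj r) _ hs.pos _ _
  · have := h.lt'
    rw [L_succ, ← mul_assoc] at this
    exact this
  · exact dvd_fc _ _ _ _ _
  · exact h.dvd'
  · intro i
    rw [h.cmp' i (mem_univ i)]
    exact fc_cast (hP.prime r) (hP.inj r) (P.F' (r + 1) * P.L r) hs.cop (P.z r) _ i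

/-- the parts: side and level -/
def Sd (P : Pr κ) (a : Bool × ℕ) : Side (P.p a.2) κ := if a.1 then P.S' a.2 else P.S a.2

/-- the vector of a part -/
def yv (x : Dt × (ℕ × ℕ)) (a : Bool × ℕ) : Fin 3 → ℕ :=
  if a.1 then (x.1.2 a.2).1.2 else (x.1.2 a.2).1.1

/-- the code of a part -/
def uv (x : Dt × (ℕ × ℕ)) (a : Bool × ℕ) : ℕ :=
  if a.1 then (x.1.2 a.2).2.2 else (x.1.2 a.2).2.1

/-- the keys of the family 2 of the levels `< r` -/
def K2 (P : Pr κ) (r : ℕ) : Finset κ :=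
  (range r).biUnion (fun t => (P.Y t).image (fun y => P.key t 2 y) ∪
    (P.Y t).image (fun y => P.key' t 2 y))

theorem mem_K2 {r : ℕ} {k : κ} : k ∈ K2 P r ↔
    ∃ t < r, ∃ y ∈ P.Y t, P.key t 2 y = k ∨ P.key' t 2 y = k := by
  unfold K2
  simp only [mem_biUnion, mem_range, mem_union, mem_image]
  constructor
  · rintro ⟨t, ht, ⟨y, hy, h⟩ | ⟨y, hy, h⟩⟩
    · exact ⟨t, ht, y, hy, Or.inl h⟩
    · exact ⟨t, ht, y, hy, Or.inr h⟩
  · rintro ⟨t, ht, y, hy, h | h⟩
    · exact ⟨t, ht, Or.inl ⟨y, hy, h⟩⟩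
    · exact ⟨t, ht, Or.inr ⟨y, hy, h⟩⟩

/-- the keys of the other families are not in `K2` -/
theorem key_not_mem_K2 (hP : P.Ok Mk) {r t : ℕ} (ht : t < P.h) {i : Fin 3} (hi : i ≠ 2)
    (y : Fin 3 → ℕ) : P.key t i y ∉ K2 P r := by
  rw [mem_K2]
  rintro ⟨t', ht', y', hy', h | h⟩
  · by_cases he : t' = t
    · subst he
      exact hi ((hP.sok t' ht).inj _ _ _ _ h).1.symm
    · exact hP.kd t' t he _ _ _ _ h
  · exact hP.kdd' t t' _ _ _ _ h.symm

theorem key'_not_mem_K2 (hP : P.Ok Mk) {r t : ℕ} (ht : t < P.h) {i : Fin 3} (hi : i ≠ 2)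
    (y : Fin 3 → ℕ) : P.key' t i y ∉ K2 P r := by
  rw [mem_K2]
  rintro ⟨t', ht', y', hy', h | h⟩
  · exact hP.kdd' t' t _ _ _ _ h
  · by_cases he : t' = t
    · subst he
      exact hi ((hP.sok' t' ht).inj _ _ _ _ h).1.symm
    · exact hP.kd' t' t he _ _ _ _ h

/-- the parts of the levels `< r` -/
def Ar (r : ℕ) : Finset (Bool × ℕ) := (univ : Finset Bool) ×ˢ range r

theorem mem_Ar {r : ℕ} {a : Bool × ℕ} : a ∈ Ar r ↔ a.2 < r := by
  simp [Ar]

omit [DecidableEq κ] in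
/-- all parts are admissible sides -/
theorem Sd_ok (hP : P.Ok Mk) {a : Bool × ℕ} (ha : a.2 < P.h) : (Sd P a).Ok rk3 Mk := by
  unfold Sd
  split_ifs
  · exact hP.sok' _ ha
  · exact hP.sok _ ha

omit [DecidableEq κ] in
/-- different parts have different keys -/
theorem Sd_disj (hP : P.Ok Mk) {a a' : Bool × ℕ} (h : a ≠ a') (i : Fin 3) (y : Fin 3 → ℕ)
    (i' : Fin 3) (y' : Fin 3 → ℕ) : (Sd P a).key i y ≠ (Sd P a').key i' y' := by
  obtain ⟨b, t⟩ := a
  obtain ⟨b', t'⟩ := a'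
  cases b <;> cases b'
  · exact hP.kd t t' (fun he => h (by rw [he])) i y i' y'
  · exact hP.kdd' t t' i y i' y'
  · exact fun he => hP.kdd' t' t i' y' i y he.symm
  · exact hP.kd' t t' (fun he => h (by rw [he])) i y i' y'

omit [DecidableEq κ] in
theorem prod_Ar (r : ℕ) :
    ∏ a ∈ Ar r, (MM (P.p a.2) (Sd P a).e {2} : ℝ) = P.W r := by
  unfold Ar Pr.W
  rw [prod_product_right]
  refine prod_congr rfl (fun t _ => ?_)
  rw [Fintype.prod_bool]
  have h1 : (MM (P.p t) (Sd P (true, t)).e {2} : ℝ) = (P.q t 2 : ℕ) := by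
    rw [MM, prod_singleton]; rfl
  have h2 : (MM (P.p t) (Sd P (false, t)).e {2} : ℝ) = (P.q t 2 : ℕ) := by
    rw [MM, prod_singleton]; rfl
  rw [h1, h2, sq]

variable {K : Finset κ}

open Classical in
/-- the candidates -/
noncomputable def Cd (P : Pr κ) (w : κ → ℕ) (I : ℕ) (X : ℕ → ℕ) (B B' : Finset ℕ) :
    Finset (Dt × (ℕ × ℕ)) :=
  (CC P w I X P.h ×ˢ (B ×ˢ B')).filter (fun q =>
      P.M * P.L P.h * q.2.1 + P.M' * P.L P.h * q.2.2 = TT X q.1 P.h)

/-- S15 from S8 and S9 -/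
theorem prL_of (hP : P.Ok Mk) (hMk : ∀ k, 0 < Mk k)
    (hK : ∀ r < P.h, ∀ i, ∀ y ∈ P.Y r, P.key r i y ∈ K ∧ P.key' r i y ∈ K) (B B' : Finset ℕ)
    {ρ : ℝ} (hρ : 0 ≤ ρ)
    (hc : ∀ w : κ → ℕ, ((Cd P w I X B B').card : ℝ) ≤ ρ * P.W P.h)
    (htr : ∀ (w : κ → ℕ) (x : Dt × (ℕ × ℕ)), Hit P w I X B B' x → ∀ w' : κ → ℕ,
      (∀ t < P.h, ∀ y ∈ P.Y t, ∀ i : Fin 3, i ≠ 2 → w' (P.key t i y) = w (P.key t i y) ∧
        w' (P.key' t i y) = w (P.key' t i y)) →
      tr P.h x.1 ∈ CC P w' I X P.h ∧ TT X (tr P.h x.1) P.h = TT X x.1 P.h) (m : ℕ) :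
    PrG Mk K (Ev P I X B B' m (EvL P)) (P.W P.h * ρ ^ (m + 1)) := by
  classical
  have hW : 0 ≤ P.W P.h := prod_nonneg (fun _ _ => by positivity)
  refine PrG_cond (K0 := K \ K2 P P.h) Finset.sdiff_subset (mul_nonneg hW (by positivity)) ?_
  intro r0 _
  set w0 : κ → ℕ := ext (K \ K2 P P.h) r0 with hw0
  set K1 : Finset κ := K \ (K \ K2 P P.h) with hK1
  have hG : ∀ w : κ → ℕ, ∀ k ∈ K1, glue (K \ K2 P P.h) w0 w k = w k := by
    intro w k hk
    rw [hK1, mem_sdiff] at hk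
    exact glue_not_mem _ _ _ hk.2
  have hkey : ∀ t ∈ Cd P w0 I X B B', ∀ a ∈ Ar P.h, ∀ i ∈ ({2} : Finset (Fin 3)),
      (Sd P a).key i (yv t a) ∈ K1 := by
    intro t ht a ha i hi
    rw [mem_singleton] at hi
    subst hi
    rw [Cd, mem_filter, mem_product] at ht
    have hY := CC_Y ht.1.1 a.2 (mem_Ar.1 ha)
    rw [hK1, mem_sdiff, mem_sdiff, not_and, not_not]
    obtain ⟨b, s⟩ := a
    have hs : s < P.h := mem_Ar.1 ha
    cases b
    · have h1 : (Sd P (false, s)).key 2 (yv t (false, s)) = P.key s 2 (t.1.2 s).1.1 := rfl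
      rw [h1]
      exact ⟨(hK s hs 2 _ hY.1).1, fun _ => mem_K2.2 ⟨s, hs, _, hY.1, Or.inl rfl⟩⟩
    · have h1 : (Sd P (true, s)).key 2 (yv t (true, s)) = P.key' s 2 (t.1.2 s).1.2 := rfl
      rw [h1]
      exact ⟨(hK s hs 2 _ hY.2).2, fun _ => mem_K2.2 ⟨s, hs, _, hY.2, Or.inr rfl⟩⟩
  have hmain := tuple_gen (p := fun a : Bool × ℕ => P.p a.2) (fun a => hP.prime a.2)
    (fun a => hP.inj a.2) (A := Ar P.h) (S := Sd P) (rk := rk3) (Mk := Mk)
    (fun a ha => Sd_ok hP (mem_Ar.1 ha))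
    (fun a _ a' _ h i y i' y' => Sd_disj hP h i y i' y') hMk (fun _ => {2}) K1
    (glue (K \ K2 P P.h) w0) hG yv uv (Cd P w0 I X B B') hkey ρ
    (by rw [prod_Ar]; exact hc w0) m
  refine PrG_mono ?_ ?_ hmain
  · intro r1 _ hE
    obtain ⟨T, hT1, hT2, hT3, hT4⟩ := hE
    set w : κ → ℕ := glue (K \ K2 P P.h) w0 (ext K1 r1) with hw
    set f : Dt × (ℕ × ℕ) → Dt × (ℕ × ℕ) := fun x => (tr P.h x.1, x.2) with hf
    have hfi : Set.InjOn f T := by
      intro x hx y hy hxy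
      refine hT3 x hx y hy ?_
      have h1 := congrArg (fun q : Dt × (ℕ × ℕ) => q.1.1) hxy
      exact h1
    have hagree : ∀ t < P.h, ∀ y ∈ P.Y t, ∀ i : Fin 3, i ≠ 2 →
        w0 (P.key t i y) = w (P.key t i y) ∧ w0 (P.key' t i y) = w (P.key' t i y) := by
      intro t ht y hy i hi
      have h1 : P.key t i y ∈ K \ K2 P P.h :=
        mem_sdiff.2 ⟨(hK t ht i y hy).1, key_not_mem_K2 hP ht hi y⟩
      have h2 : P.key' t i y ∈ K \ K2 P P.h :=
        mem_sdiff.2 ⟨(hK t ht i y hy).2, key'_not_mem_K2 hP ht hi y⟩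
      exact ⟨(glue_mem _ _ _ h1).symm, (glue_mem _ _ _ h2).symm⟩
    have hlev : ∀ (x : Dt × (ℕ × ℕ)) (t : ℕ), t < P.h → (f x).1.2 t = x.1.2 t := by
      intro x t ht
      simp only [hf, tr, if_pos ht]
    refine ⟨T.image f, ?_, ?_, ?_, ?_⟩
    · intro z hz
      obtain ⟨x, hx, rfl⟩ := mem_image.1 hz
      have hH := hT2 x hx
      obtain ⟨h1, h2⟩ := htr w x hH w0 hagree
      rw [Cd, mem_filter, mem_product, mem_product]
      exact ⟨⟨h1, hH.b, hH.b'⟩, hH.eq.trans h2.symm⟩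
    · rw [card_image_of_injOn hfi, hT1]
    · intro z hz a ha _
      obtain ⟨x, hx, rfl⟩ := mem_image.1 hz
      have hH := hT2 x hx
      obtain ⟨b, s⟩ := a
      have hs : s < P.h := mem_Ar.1 ha
      have hl := hH.lev s hs
      cases b
      · have h1 := cd_eq hP hs hl
        have h2 : yv (f x) (false, s) = (x.1.2 s).1.1 := by
          have := hlev x s hs
          simp only [yv, this]
          rfl
        have h3 : uv (f x) (false, s) = (x.1.2 s).2.1 := by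
          have := hlev x s hs
          simp only [uv, this]
          rfl
        rw [h2, h3]
        exact h1
      · have h1 := cd_eq' hP hs hl
        have h2 : yv (f x) (true, s) = (x.1.2 s).1.2 := by
          have := hlev x s hs
          simp only [yv, this]
          rfl
        have h3 : uv (f x) (true, s) = (x.1.2 s).2.2 := by
          have := hlev x s hs
          simp only [uv, this]
          rfl
        rw [h2, h3]
        exact h1
    · intro z hz z' hz' hne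
      obtain ⟨x, hx, rfl⟩ := mem_image.1 hz
      obtain ⟨x', hx', rfl⟩ := mem_image.1 hz'
      have hxx : x ≠ x' := fun h => hne (by rw [h])
      refine disjoint_fks (fun a _ a' _ h i y i' y' => Sd_disj hP h i y i' y') _ _ ?_
      intro a ha
      obtain ⟨b, s⟩ := a
      have hs : s < P.h := mem_Ar.1 ha
      have hk := hT4 s hs
      refine disjoint_fk' (Sd_ok hP (a := (b, s)) hs) {2} 2 ?_ _ _ (fun _ => ?_)
      · intro i hi
        rw [mem_singleton] at hi
        subst hi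
        exact le_rfl
      · cases b
        · have h2 : ∀ x, yv (f x) (false, s) = (x.1.2 s).1.1 := by
            intro x
            have := hlev x s hs
            simp only [yv, this]
            rfl
          rw [h2, h2]
          exact hk.1 x hx x' hx' hxx
        · have h2 : ∀ x, yv (f x) (true, s) = (x.1.2 s).1.2 := by
            intro x
            have := hlev x s hs
            simp only [yv, this]
            rfl
          rw [h2, h2]
          exact hk.2 x hx x' hx' hxx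
  · have h1 := mul_le_mul_of_nonneg_right (hc w0) (pow_nonneg hρ m)
    calc ((Cd P w0 I X B B').card : ℝ) * ρ ^ m ≤ ρ * P.W P.h * ρ ^ m := h1
      _ = P.W P.h * ρ ^ (m + 1) := by ring

end Pool.Agent.Helper82.SL
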